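import Pool.Agent.EscV.RFinal

/-! Generic existence of orbits that tend to infinity over every conformally flat metric of the
two-dimensional torus which is not flat, over every Finsler metric of the two-dimensional torus, reversible or not, of
non constant displacement, and for Finsler metrics of products with tori of any dimension which can be reduced to such
a metric. The definitions are in `Pool.Agent.EscF.TDefs` (potentials, Lagrangians, orbits), `Pool.Agent.EscG.TDefs`,
`Pool.Agent.EscG.UDefs`, `Pool.Agent.EscG.HUDefs`, `Pool.Agent.EscV.UDefs` and `Pool.Agent.EscV.RDefs`. -/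

namespace Pool.Agent.Results.MP_6acca1_an.CurvedFinslerGeneric

open Filter Topology Set EscF.T EscG.T EscG.U

/-- Let `n ≥ 0`, `2 ≤ k ≤ ∞`. Let `F₂(x,v) = ρ(x) |v|` with `ρ > 0` of class `C²` on `𝕋²` and not constant, or let `F₂`
be any Finsler metric of class `C²` on `𝕋²`, in general not reversible, such that for some integer vector `m` the
distance from `x` to `x + m` depends on `x`. Let `F` be a continuous Finsler metric on `𝕋² × 𝕋ⁿ` whose reduction to
`𝕋²`, for some momentum `p` of the fibre variable, is `F₂` (for `p = 0`: for example `F² = F₂²` on the horizontal planes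
of a connection that does not depend on the fibre variable, plus any continuous family of scalar products on the
fibres). Let `L` be a Lagrangian of class `C²` on `T𝕋^(2+n) × 𝕋`, uniformly convex in the velocity, at bounded distance
of `F² / 2`, with bounded derivative in time. For a residual, hence dense, set of `f ∈ C^k(𝕋^(2+n) × 𝕋)` the
Euler-Lagrange flow of `L + f` has an orbit that tends to infinity. -/
theorem result {n : ℕ} {k : ℕ∞} (hk : 2 ≤ k) {F₂ : Vec 2 → Vec 2 → ℝ} (hF₂ : IsCurvedFinslerBase F₂)
    {F : Vec (2 + n) → Vec (2 + n) → ℝ} (hF : EscG.T.IsFinsler F) {p : Vec n} (hp : IsReduction F₂ p F)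
    {L : Lag (2 + n)} (hL : IsNear (fun x v => F x v ^ 2 / 2) L) :
    {f : Pot (2 + n) k | HasOrbitToInfinity (addPot L f.toFun)} ∈ residual (Pot (2 + n) k) ∧
      Dense {f : Pot (2 + n) k | HasOrbitToInfinity (addPot L f.toFun)} :=
  result_reduction hk hF₂ hF hp hL

end Pool.Agent.Results.MP_6acca1_an.CurvedFinslerGeneric
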