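import Pool.Agent.EscN.TResult
import Pool.Agent.EscN.V1

/-! Generic existence of escaping orbits on `M = (ℝⁿ × N)/ℤⁿ`. The definitions are in
`Pool.Agent.EscN.TDefs` and `Pool.Agent.EscN.VDefs`. -/

namespace Pool.Agent.Results.MP_6acca1_an.FlatBundleGeneric

open Filter Topology Set EscN.T

/-- Let `M = (ℝⁿ × N)/ℤⁿ`, `n ≥ 2`, let `2 ≤ k ≤ ∞`, let `V` be a `C^k` potential on `M × 𝕋`, and let
`L` be any Lagrangian on `TM × 𝕋` which is kinetic energy plus `V` for large velocities. For a residual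
set of `f ∈ C^k(M × 𝕋)`, the Euler-Lagrange flow of `L + f` has an orbit that tends to infinity.
Residual sets are dense here. -/
theorem result {n m : ℕ} (hn : 2 ≤ n) {k : ℕ∞} (hk : 2 ≤ k) (M : FlatBundle n m) (V : Pot M k)
    (L : Lag n m) (hL : IsMechAtInfinity M L V.toFun) :
    {f : Pot M k | EscapesToInfinity M (fun x ν ξ η t => L x ν ξ η t + f.toFun (x, ν, t))} ∈
        residual (Pot M k) ∧
      Dense {f : Pot M k | EscapesToInfinity M (fun x ν ξ η t => L x ν ξ η t + f.toFun (x, ν, t))} := by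
  obtain ⟨h1, h2⟩ := EscN.T.result hn hk M V
  have hsub : {f : Pot M k | HasEscapingOrbit M (V.toFun + f.toFun)} ⊆
      {f : Pot M k | EscapesToInfinity M (fun x ν ξ η t => L x ν ξ η t + f.toFun (x, ν, t))} := by
    intro f hf
    refine extremal_of_orbit M hk (padd V f) _ ?_ hf
    obtain ⟨R, hR⟩ := hL
    refine ⟨R, fun x ν ξ η t hν hη hξ => ?_⟩
    change L x ν ξ η t + f.toFun (x, ν, t) = _
    rw [hR x ν ξ η t hν hη hξ, padd_toFun, Pi.add_apply, add_assoc]
  exact ⟨mem_of_superset h1 hsub, h2.mono hsub⟩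

end Pool.Agent.Results.MP_6acca1_an.FlatBundleGeneric
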