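import Pool.Agent.EscV.WFinal

/-! Generic existence of orbits that tend to infinity for every Riemannian metric of the product of the
two-dimensional torus and of a torus of any dimension which is invariant under the translations of the second factor.
The definitions are in `Pool.Agent.EscF.TDefs` (potentials, Lagrangians, orbits), `Pool.Agent.EscG.TDefs`,
`Pool.Agent.EscG.UDefs`, `Pool.Agent.EscG.HUDefs`, `Pool.Agent.EscG.PrDefs` and `Pool.Agent.EscV.WDefs`. -/

namespace Pool.Agent.Results.MP_6acca1_an.InvariantMetricGeneric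

open Filter Topology Set EscF.T EscG.T EscG.U

/-- Let `n ≥ 0`, `2 ≤ k ≤ ∞`, let `G` be any Riemannian metric of class `C^k` on `𝕋² × 𝕋ⁿ` which is invariant under the
translations of `𝕋ⁿ` (for example `g ⊕ Q`, with any metric `g` of `𝕋²` and any scalar product `Q` on `ℝⁿ`), and let `V`
be any potential of class `C^k` on `𝕋² × 𝕋ⁿ × 𝕋`. Let `L` be a function which, for large velocities, is equal to the
kinetic energy of `G` plus `V`. For a residual, hence dense, set of `f ∈ C^k(𝕋² × 𝕋ⁿ × 𝕋)` the Euler-Lagrange flow of
`L + f` has an orbit that tends to infinity. -/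
theorem result {n : ℕ} {k : ℕ∞} (hk : 2 ≤ k) {G : Vec (2 + n) → Vec (2 + n) → Vec (2 + n) → ℝ}
    (hG : IsRiemannian k G) (hinv : IsFibreInvariant G) (V : Pot (2 + n) k) {L : Lag (2 + n)}
    (hL : IsMechAtInfinity G V L) :
    {f : Pot (2 + n) k | HasOrbitToInfinity (addPot L f.toFun)} ∈ residual (Pot (2 + n) k) ∧
      Dense {f : Pot (2 + n) k | HasOrbitToInfinity (addPot L f.toFun)} :=
  result_invariant hk hG hinv V hL

end Pool.Agent.Results.MP_6acca1_an.InvariantMetricGeneric
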