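import Pool.Agent.EscW.RgOpen

/-! Generic existence of orbits that tend to infinity over any given open subset of any closed manifold, for an open
and dense set of Lagrangians over this set, of any growth which is at least quadratic and at most polynomial: growth
functions of Lagrangians near a time-periodic family of Finsler metrics. The definitions are in
`Pool.Agent.EscF.TDefs`, `Pool.Agent.EscN.TDefs`, `Pool.Agent.EscM.MDefs`, `Pool.Agent.EscMT.ODefs`,
`Pool.Agent.EscW.RcDefs`, `Pool.Agent.EscW.RfDefs`, `Pool.Agent.EscW.RlDefs` and `Pool.Agent.EscW.RgDefs`. -/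

namespace Pool.Agent.Results.MP_6acca1_an.OpenDenseGeneric

open Filter Topology Set EscF.T EscM EscMT EscW.Rm
open scoped ContDiff

/-- For every `2 ≤ k ≤ ∞`: for a residual, hence dense, set of `f ∈ C^k(M × 𝕋)` the Euler-Lagrange flow of `L + f`
has an orbit over `W` that tends to infinity. -/
def EscapesGenerically {d : ℕ} (M : Sub d) (W : Set (Vec d)) (L : Lag d) : Prop :=
  ∀ k : ℕ∞, 2 ≤ k →
    {f : Pot M k | EscapesOver M W (fun q => L q + f.toFun (q.1, q.2.2))} ∈ residual (Pot M k) ∧
      Dense {f : Pot M k | EscapesOver M W (fun q => L q + f.toFun (q.1, q.2.2))}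

/-- Let `M` be any closed submanifold of a torus, with two linearly independent tangent vectors at `y0`, `W` an open
set with `y0 ∈ W` and `ε > 0`. Let `F(x, v, t)` be any time-periodic family of Finsler metrics over `W`, smooth for
nonzero vectors, with `D_v² F² > 0`. There are a smooth time-periodic function `w(x, t)` on `M` with `|w - 1| ≤ ε`,
equal to one outside of `W`, and `R, δ > 0` such that, for every weight `κ` and every growth function `g`, the
following functions `L` on `TM × 𝕋` have the property that for every `2 ≤ k ≤ ∞` and a residual, hence dense, set of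
`f ∈ C^k(M × 𝕋)` the Euler-Lagrange flow of `L + f` has an orbit which stays over `W` and tends to infinity: every `L`
which is, over `W` and for large `‖v‖`, equal to `g(L₀)` for an `L₀` near `κ(t) F'(x, v, t)²/2` over `W`, for a
time-periodic family `F'` of Finsler metrics over `W`, of class `C²` for nonzero vectors (for example `F' = w F`), with
derivatives of order at most two of `F' - w F` at most `δ` for `1 / R ≤ ‖v‖ ≤ R`. There is no condition on `L` outside
of `W` and for small velocities. -/
theorem result {d : ℕ} (M : Sub d) {y0 u v : Vec d} (hy : y0 ∈ M.N) (hu : IsTangent M y0 u)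
    (hv : IsTangent M y0 v) (huv : LinearIndependent ℝ ![u, v])
    {W : Set (Vec d)} (hW : IsOpen W) (hy0 : y0 ∈ W) {F : Vec d → Vec d → ℝ → ℝ}
    (hF : IsFinslerOn M W ∞ F) (hFc : IsConvexOn M W F) {ε : ℝ} (hε : 0 < ε) :
    ∃ w : Vec d → ℝ → ℝ, IsConformalT M W ε w ∧ ∃ R δ : ℝ, 0 < R ∧ 0 < δ ∧
      ∀ (κ g : ℝ → ℝ), IsWeight κ → IsGrowth g →
      ∀ F' : Vec d → Vec d → ℝ → ℝ, IsFinslerOn M W 2 F' → IsClose M W R δ (fun x v t => w x t * F x v t) F' →
      ∀ L : Lag d, IsGrowthNearOn M W κ F' g L → EscapesGenerically M W L :=
  open_growth hy hu hv huv hW hy0 hF hFc hε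

end Pool.Agent.Results.MP_6acca1_an.OpenDenseGeneric
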